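import Pool.Agent.helper68.BD2.Spec

/-!
# Row `bd2:NUE` (MP_4467b5_nt)

The numerical inequalities of the first class, for two polynomials (a short and a long one).
-/

set_option autoImplicit false

open Complex MeasureTheory

namespace Pool.Agent.BEY

open Pool.Agent.helper84.DM Pool.Agent.helper78.ED Pool.Agent.DH Pool.Agent.LDH

/-- the bound for a quotient `G / V²` -/
theorem NUE_quot {C₂ n t x σ G V : ℝ} (hC : 0 < C₂) (hV : 0 < V)
    (hG : G ≤ C₂ * Real.exp (n + t * x)) (hNV : Real.exp (n * (2 * σ) - t * x) ≤ C₂ * V ^ 2) :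
    G / V ^ 2 ≤ C₂ ^ 2 * Real.exp ((1 - 2 * σ) * n + 2 * (t * x)) := by
  have hV2 : 0 < V ^ 2 := by positivity
  rw [div_le_iff₀ hV2]
  calc G ≤ C₂ * Real.exp (n + t * x) := hG
    _ = C₂ * Real.exp ((1 - 2 * σ) * n + 2 * (t * x)) * Real.exp (n * (2 * σ) - t * x) := by
        rw [mul_assoc, ← Real.exp_add]
        congr 2
        ring
    _ ≤ C₂ * Real.exp ((1 - 2 * σ) * n + 2 * (t * x)) * (C₂ * V ^ 2) :=
        mul_le_mul_of_nonneg_left hNV (by positivity)
    _ = C₂ ^ 2 * Real.exp ((1 - 2 * σ) * n + 2 * (t * x)) * V ^ 2 := by ring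

/-- the four terms, in exponential form -/
theorem NUE_terms {C₂ n m t u v l g h E : ℝ} (hC : 0 < C₂) (hg0 : 0 ≤ g) (hh0 : 0 ≤ h)
    (hg : g ≤ C₂ ^ 2 * Real.exp u) (hh : h ≤ C₂ ^ 2 * Real.exp v)
    (h1 : m + v + l ≤ E) (h2 : v + v + n + u + t - l ≤ E) (h3 : m + v + v + n + u ≤ E)
    (h4 : m + v + v + t * (1 / 2) + n + u + u ≤ E) :
    Real.exp m * h * Real.exp l + Real.exp m * h ^ 2 *
      (Real.exp n * g * (Real.exp t / (Real.exp m * Real.exp l) + 1) +
        Real.exp (t * (1 / 2)) * Real.exp n * g ^ 2) ≤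
      (C₂ ^ 2 + 2 * C₂ ^ 6 + C₂ ^ 8) * Real.exp E := by
  have hh2 : h ^ 2 ≤ (C₂ ^ 2 * Real.exp v) ^ 2 := pow_le_pow_left₀ hh0 hh 2
  have hg2 : g ^ 2 ≤ (C₂ ^ 2 * Real.exp u) ^ 2 := pow_le_pow_left₀ hg0 hg 2
  have em := Real.exp_pos m
  have en := Real.exp_pos n
  have el := Real.exp_pos l
  have et := Real.exp_pos t
  have et2 := Real.exp_pos (t * (1 / 2))
  have b1 : Real.exp m * h * Real.exp l ≤ C₂ ^ 2 * Real.exp E := by
    calc Real.exp m * h * Real.exp l ≤ Real.exp m * (C₂ ^ 2 * Real.exp v) * Real.exp l :=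
          mul_le_mul_of_nonneg_right (mul_le_mul_of_nonneg_left hh em.le) el.le
      _ = C₂ ^ 2 * Real.exp (m + v + l) := by
          rw [Real.exp_add, Real.exp_add]
          ring
      _ ≤ C₂ ^ 2 * Real.exp E := mul_le_mul_of_nonneg_left (Real.exp_le_exp.2 h1) (by positivity)
  have b2 : Real.exp m * h ^ 2 * (Real.exp n * g * (Real.exp t / (Real.exp m * Real.exp l))) ≤
      C₂ ^ 6 * Real.exp E := by
    calc Real.exp m * h ^ 2 * (Real.exp n * g * (Real.exp t / (Real.exp m * Real.exp l)))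
        = h ^ 2 * g * (Real.exp n * Real.exp t / Real.exp l) := by
          field_simp
      _ ≤ (C₂ ^ 2 * Real.exp v) ^ 2 * (C₂ ^ 2 * Real.exp u) * (Real.exp n * Real.exp t / Real.exp l) :=
          mul_le_mul_of_nonneg_right (mul_le_mul hh2 hg hg0 (by positivity)) (by positivity)
      _ = C₂ ^ 6 * Real.exp (v + v + n + u + t - l) := by
          rw [Real.exp_sub, Real.exp_add, Real.exp_add, Real.exp_add, Real.exp_add]
          ring
      _ ≤ C₂ ^ 6 * Real.exp E := mul_le_mul_of_nonneg_left (Real.exp_le_exp.2 h2) (by positivity)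
  have b3 : Real.exp m * h ^ 2 * (Real.exp n * g) ≤ C₂ ^ 6 * Real.exp E := by
    calc Real.exp m * h ^ 2 * (Real.exp n * g)
        = h ^ 2 * g * (Real.exp m * Real.exp n) := by ring
      _ ≤ (C₂ ^ 2 * Real.exp v) ^ 2 * (C₂ ^ 2 * Real.exp u) * (Real.exp m * Real.exp n) :=
          mul_le_mul_of_nonneg_right (mul_le_mul hh2 hg hg0 (by positivity)) (by positivity)
      _ = C₂ ^ 6 * Real.exp (m + v + v + n + u) := by
          rw [Real.exp_add, Real.exp_add, Real.exp_add, Real.exp_add]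
          ring
      _ ≤ C₂ ^ 6 * Real.exp E := mul_le_mul_of_nonneg_left (Real.exp_le_exp.2 h3) (by positivity)
  have b4 : Real.exp m * h ^ 2 * (Real.exp (t * (1 / 2)) * Real.exp n * g ^ 2) ≤
      C₂ ^ 8 * Real.exp E := by
    calc Real.exp m * h ^ 2 * (Real.exp (t * (1 / 2)) * Real.exp n * g ^ 2)
        = h ^ 2 * g ^ 2 * (Real.exp m * Real.exp (t * (1 / 2)) * Real.exp n) := by ring
      _ ≤ (C₂ ^ 2 * Real.exp v) ^ 2 * (C₂ ^ 2 * Real.exp u) ^ 2 *
            (Real.exp m * Real.exp (t * (1 / 2)) * Real.exp n) :=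
          mul_le_mul_of_nonneg_right (mul_le_mul hh2 hg2 (by positivity) (by positivity))
            (by positivity)
      _ = C₂ ^ 8 * Real.exp (m + v + v + t * (1 / 2) + n + u + u) := by
          rw [Real.exp_add, Real.exp_add, Real.exp_add, Real.exp_add, Real.exp_add, Real.exp_add]
          ring
      _ ≤ C₂ ^ 8 * Real.exp E := mul_le_mul_of_nonneg_left (Real.exp_le_exp.2 h4) (by positivity)
  calc Real.exp m * h * Real.exp l + Real.exp m * h ^ 2 *
      (Real.exp n * g * (Real.exp t / (Real.exp m * Real.exp l) + 1) +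
        Real.exp (t * (1 / 2)) * Real.exp n * g ^ 2)
      = Real.exp m * h * Real.exp l +
        Real.exp m * h ^ 2 * (Real.exp n * g * (Real.exp t / (Real.exp m * Real.exp l))) +
        Real.exp m * h ^ 2 * (Real.exp n * g) +
        Real.exp m * h ^ 2 * (Real.exp (t * (1 / 2)) * Real.exp n * g ^ 2) := by ring
    _ ≤ C₂ ^ 2 * Real.exp E + C₂ ^ 6 * Real.exp E + C₂ ^ 6 * Real.exp E + C₂ ^ 8 * Real.exp E :=
        add_le_add (add_le_add (add_le_add b1 b2) b3) b4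
    _ = (C₂ ^ 2 + 2 * C₂ ^ 6 + C₂ ^ 8) * Real.exp E := by ring

/-- the four inequalities for the exponents; `P = t * (A * (1 - σ))` -/
theorem NUE_exps {t n m σ A δ z l : ℝ} (ht : 0 ≤ t) (hδ : 0 < δ) (hσ : 3 / 4 ≤ σ)
    (hσ1 : σ ≤ 1) (hA : Ok σ A) (hm1 : t * (A / 3) ≤ m) (hm2 : m ≤ t * (A / 2 + 4 * δ))
    (hnm : 2 * n ≤ m) (hnm2 : t * (A / 2) ≤ n + m)
    (hl : l = max 0 (t * (A * (1 - σ)) - m * (2 - 2 * σ))) :
    m + ((1 - 2 * σ) * m + z) + l ≤ t * (A * (1 - σ)) + (z + 2 * (t * δ)) ∧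
    ((1 - 2 * σ) * m + z) + ((1 - 2 * σ) * m + z) + n + ((1 - 2 * σ) * n + z) + t - l ≤
      t * (A * (1 - σ)) + 3 * z ∧
    m + ((1 - 2 * σ) * m + z) + ((1 - 2 * σ) * m + z) + n + ((1 - 2 * σ) * n + z) ≤
      t * (A * (1 - σ)) + (3 * z + t * δ) ∧
    m + ((1 - 2 * σ) * m + z) + ((1 - 2 * σ) * m + z) + t * (1 / 2) + n +
      ((1 - 2 * σ) * n + z) + ((1 - 2 * σ) * n + z) ≤ t * (A * (1 - σ)) + 4 * z := by
  obtain ⟨f1, f2, f3, f4, f5, f6⟩ := Ok_facts hA
  have hσ' : 0 ≤ 1 - σ := by linarith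
  have hA0 : 0 ≤ A := by linarith
  have htA : 0 ≤ t * A := mul_nonneg ht hA0
  have hm0 : 0 ≤ m := by
    have : 0 ≤ t * (A / 3) := by positivity
    linarith
  have htδ : 0 ≤ t * δ := mul_nonneg ht hδ.le
  have q1 : m * (1 - σ) ≤ t * (A / 2 + 4 * δ) * (1 - σ) := mul_le_mul_of_nonneg_right hm2 hσ'
  have q2 : t * δ * (1 - σ) ≤ t * δ * (1 / 4) := mul_le_mul_of_nonneg_left (by linarith) htδ
  have q3 : n * (1 - σ) * 2 ≤ m * (1 - σ) := by
    have := mul_le_mul_of_nonneg_right hnm hσ'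
    linarith
  have q4 : 0 ≤ t * A * (1 - σ) := mul_nonneg htA hσ'
  have q5 : 0 ≤ m * (4 * σ - 3) := mul_nonneg hm0 (by linarith)
  have q6 : t * (A / 3) * (7 * σ - 5) ≤ m * (7 * σ - 5) :=
    mul_le_mul_of_nonneg_right hm1 (by linarith)
  have q7 : t * (A / 2) * (4 * σ - 3) ≤ (n + m) * (4 * σ - 3) :=
    mul_le_mul_of_nonneg_right hnm2 (by linarith)
  have q8 : t * 3 ≤ t * (A + A * σ) := mul_le_mul_of_nonneg_left f4 ht
  have q9 : t * (1 + A) ≤ t * (2 * (A * σ)) := mul_le_mul_of_nonneg_left f5 ht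
  have q10 : t * (A * (1 - σ)) - m * (2 - 2 * σ) ≤ l := by
    rw [hl]; exact le_max_right _ _
  have q11 : l ≤ t * (A * (1 - σ)) - m * (2 - 2 * σ) + 2 * (t * δ) := by
    rw [hl]
    refine max_le ?_ ?_
    · linarith
    · linarith
  refine ⟨?_, ?_, ?_, ?_⟩
  · linarith
  · linarith
  · linarith
  · linarith

theorem NUE : NUE_stmt := by
  intro s₀ ε δ hs hs1 hε hδ hδε hδ16
  obtain ⟨η, hη⟩ : ∃ η, η = s₀ - 3 / 4 := ⟨_, rfl⟩
  have hη0 : 0 < η := by linarith
  have hη1 : η ≤ 1 / 4 := by linarith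
  obtain ⟨μ, hμ⟩ : ∃ μ, μ = min ε (δ * η) := ⟨_, rfl⟩
  have hδη0 : 0 < δ * η := by positivity
  have hμ0 : 0 < μ := by rw [hμ]; exact lt_min hε hδη0
  have hμε : μ ≤ ε := by rw [hμ]; exact min_le_left _ _
  have hμη : μ ≤ δ * η := by rw [hμ]; exact min_le_right _ _
  have hδη1 : δ * η ≤ 1 := by
    calc δ * η ≤ 1 * 1 := mul_le_mul (by linarith) (by linarith) hη0.le zero_le_one
      _ = 1 := by norm_num
  refine ⟨δ * μ / 2048, μ / 64, by positivity, ?_, by positivity, ?_⟩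
  · have : δ * μ ≤ 1 * 1 := mul_le_mul (by linarith) (by linarith) hμ0.le zero_le_one
    linarith
  have hx : 16 * (δ * μ / 2048) / δ = μ / 128 := by
    field_simp
    norm_num
  rw [hx]
  obtain ⟨x, hxd⟩ : ∃ x, x = μ / 128 := ⟨_, rfl⟩
  rw [← hxd]
  obtain ⟨e', he'⟩ : ∃ e', e' = μ / 64 := ⟨_, rfl⟩
  rw [← he']
  have hx0 : 0 < x := by rw [hxd]; positivity
  have he0 : 0 < e' := by rw [he']; positivity
  intro C₁ C₂ hC₁ hC₂
  refine ⟨C₁ * (C₂ ^ 2 + 2 * C₂ ^ 6 + C₂ ^ 8),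
    max (max 1 (Real.exp (2 * Real.log 2 / δ))) ((C₁ * C₂ ^ 2) ^ (2 / (δ * η))), by positivity, ?_⟩
  intro T σ A N M G V H U hT0 hσ hσ1 hA hN1 hN2 hM1 hM2 hNM hNM2 hG0 hG hV hNV hH0 hH hU hMU
  have hT1 : 1 ≤ T := (le_max_left _ _).trans ((le_max_left _ _).trans hT0)
  have hTe : Real.exp (2 * Real.log 2 / δ) ≤ T := (le_max_right _ _).trans ((le_max_left _ _).trans hT0)
  have hTC : (C₁ * C₂ ^ 2) ^ (2 / (δ * η)) ≤ T := (le_max_right _ _).trans hT0
  have hTp : 0 < T := by linarith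
  have hNp : 0 < N := lt_of_lt_of_le (by positivity) hN1
  have hMp : 0 < M := lt_of_lt_of_le (Real.rpow_pos_of_pos hTp _) hM1
  obtain ⟨t, ht⟩ : ∃ t, t = Real.log T := ⟨_, rfl⟩
  obtain ⟨n, hn⟩ : ∃ n, n = Real.log N := ⟨_, rfl⟩
  obtain ⟨m, hm⟩ : ∃ m, m = Real.log M := ⟨_, rfl⟩
  have ht0 : 0 ≤ t := by rw [ht]; exact Real.log_nonneg hT1
  have eT : ∀ y : ℝ, T ^ y = Real.exp (t * y) := fun y => by rw [ht, Real.rpow_def_of_pos hTp]
  have eN : ∀ y : ℝ, N ^ y = Real.exp (n * y) := fun y => by rw [hn, Real.rpow_def_of_pos hNp]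
  have eM : ∀ y : ℝ, M ^ y = Real.exp (m * y) := fun y => by rw [hm, Real.rpow_def_of_pos hMp]
  have eT1 : T = Real.exp t := by rw [ht, Real.exp_log hTp]
  have eN1 : N = Real.exp n := by rw [hn, Real.exp_log hNp]
  have eM1 : M = Real.exp m := by rw [hm, Real.exp_log hMp]
  have hlog2 : 0 < Real.log 2 := Real.log_pos (by norm_num)
  have e2 : (2 : ℝ) = Real.exp (Real.log 2) := (Real.exp_log (by norm_num)).symm
  -- the logarithms
  have htδ : 2 * Real.log 2 ≤ t * δ := by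
    have := hTe
    rw [eT1, Real.exp_le_exp, div_le_iff₀ hδ] at this
    exact this
  have hn1 : t * δ - Real.log 2 ≤ n := by
    have h := hN1
    rw [eT, eN1] at h
    have h' : Real.exp (t * δ - Real.log 2) ≤ Real.exp n := by
      rw [Real.exp_sub, Real.exp_log (by norm_num)]
      exact h
    exact Real.exp_le_exp.1 h'
  have hn2 : n ≤ Real.log 2 + t * (A / 4 + δ) := by
    have h := hN2
    rw [eT, eN1] at h
    have h' : Real.exp n ≤ Real.exp (Real.log 2 + t * (A / 4 + δ)) := by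
      rw [Real.exp_add, Real.exp_log (by norm_num)]
      exact h
    exact Real.exp_le_exp.1 h'
  have hm1 : t * (A / 3) ≤ m := by
    have := hM1
    rw [eT, eM1, Real.exp_le_exp] at this
    exact this
  have hm2 : m ≤ t * (A / 2 + 4 * δ) := by
    have := hM2
    rw [eT, eM1, Real.exp_le_exp] at this
    exact this
  have hnm : 2 * n ≤ m := by
    have h := hNM
    rw [eN1, eM1, ← Real.exp_nat_mul, Real.exp_le_exp] at h
    exact_mod_cast h
  have hnm2 : t * (A / 2) ≤ n + m := by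
    have h := hNM2
    rw [eT, eN1, eM1, ← Real.exp_add, Real.exp_le_exp] at h
    exact h
  have hNV' : Real.exp (n * (2 * σ) - t * x) ≤ C₂ * V ^ 2 := by
    have := hNV
    rw [eN, eT, ← Real.exp_add] at this
    have e : n * (2 * σ) + t * -x = n * (2 * σ) - t * x := by ring
    rwa [e] at this
  have hMU' : Real.exp (m * (2 * σ) - t * x) ≤ C₂ * U ^ 2 := by
    have := hMU
    rw [eM, eT, ← Real.exp_add] at this
    have e : m * (2 * σ) + t * -x = m * (2 * σ) - t * x := by ring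
    rwa [e] at this
  have hG' : G ≤ C₂ * Real.exp (n + t * x) := by
    have := hG
    rw [eT, eN1, ← Real.exp_add] at this
    exact this
  have hH' : H ≤ C₂ * Real.exp (m + t * x) := by
    have := hH
    rw [eT, eM1, ← Real.exp_add] at this
    exact this
  obtain ⟨f1, f2, f3, f4, f5, f6⟩ := Ok_facts hA
  have hσ3 : 3 / 4 ≤ σ := by linarith
  have htA : t * A ≤ t * 2 := mul_le_mul_of_nonneg_left f2 ht0
  have htA0 : t * (3 / 2) ≤ t * A := mul_le_mul_of_nonneg_left f1 ht0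
  have htδ2 : t * δ ≤ t * (1 / 16) := mul_le_mul_of_nonneg_left hδ16 ht0
  have hn0 : t * δ / 2 ≤ n := by linarith
  have hm0 : 0 ≤ m := by linarith
  -- small exponents
  have p1 : t * e' = t * μ / 64 := by rw [he']; ring
  have p2 : t * x = t * μ / 128 := by rw [hxd]; ring
  have p3 : 0 ≤ t * μ := mul_nonneg ht0 hμ0.le
  have p4 : t * μ ≤ t * ε := mul_le_mul_of_nonneg_left hμε ht0
  have p5 : t * μ ≤ t * (δ * η) := mul_le_mul_of_nonneg_left hμη ht0
  have p6 : t * δ ≤ t * (ε / 16) := mul_le_mul_of_nonneg_left hδε ht0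
  refine ⟨?_, ?_, ?_, ?_⟩
  · -- `N ≤ T`
    rw [eN1, eT1, Real.exp_le_exp]
    linarith
  · -- `M ≤ T²`
    rw [eM1, eT1, ← Real.exp_nat_mul, Real.exp_le_exp]
    push_cast
    linarith
  · -- third claim
    have k1 : C₁ * C₂ ^ 2 ≤ Real.exp (t * (δ * η) / 2) := by
      have hb2 : ((C₁ * C₂ ^ 2) ^ (2 / (δ * η))) ^ (δ * η / 2) ≤ T ^ (δ * η / 2) :=
        Real.rpow_le_rpow (by positivity) hTC (by positivity)
      rw [← Real.rpow_mul (by positivity)] at hb2
      have e : 2 / (δ * η) * (δ * η / 2) = 1 := by field_simp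
      rw [e, Real.rpow_one, eT] at hb2
      have e2 : t * (δ * η / 2) = t * (δ * η) / 2 := by ring
      rwa [e2] at hb2
    have k2 : t * (δ * η) / 2 + (t * e' + n * (1 / 2) + (n + t * x)) ≤ n * (2 * σ) - t * x := by
      have q2 : (t * δ / 2) * (2 * η) ≤ n * (2 * σ - 3 / 2) :=
        mul_le_mul hn0 (by linarith) (by positivity) (by linarith [mul_nonneg ht0 hδ.le])
      linarith
    have k3 : C₁ * T ^ e' * (Real.sqrt N * G) ≤
        C₁ * Real.exp (t * e') * (Real.exp (n * (1 / 2)) * (C₂ * Real.exp (n + t * x))) := by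
      rw [eT, Real.sqrt_eq_rpow, eN]
      exact mul_le_mul_of_nonneg_left (mul_le_mul_of_nonneg_left hG' (Real.exp_pos _).le)
        (by positivity)
    have k4 : C₂ * (C₁ * Real.exp (t * e') * (Real.exp (n * (1 / 2)) * (C₂ * Real.exp (n + t * x)))) ≤
        C₂ * V ^ 2 := by
      calc C₂ * (C₁ * Real.exp (t * e') * (Real.exp (n * (1 / 2)) * (C₂ * Real.exp (n + t * x))))
          = C₁ * C₂ ^ 2 * Real.exp (t * e' + n * (1 / 2) + (n + t * x)) := by
            rw [Real.exp_add (t * e' + n * (1 / 2)) (n + t * x),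
              Real.exp_add (t * e') (n * (1 / 2))]
            ring
        _ ≤ Real.exp (t * (δ * η) / 2) * Real.exp (t * e' + n * (1 / 2) + (n + t * x)) :=
            mul_le_mul_of_nonneg_right k1 (Real.exp_pos _).le
        _ = Real.exp (t * (δ * η) / 2 + (t * e' + n * (1 / 2) + (n + t * x))) := by
            rw [← Real.exp_add]
        _ ≤ Real.exp (n * (2 * σ) - t * x) := Real.exp_le_exp.2 k2
        _ ≤ C₂ * V ^ 2 := hNV'
    exact k3.trans (le_of_mul_le_mul_left k4 hC₂)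
  · -- the choice of `L` and the four terms
    obtain ⟨l, hl⟩ : ∃ l, l = max 0 (t * (A * (1 - σ)) - m * (2 - 2 * σ)) := ⟨_, rfl⟩
    have hl0 : 0 ≤ l := by rw [hl]; exact le_max_left _ _
    have hlt : l ≤ t := by
      rw [hl]
      refine max_le ht0 ?_
      have r1 : A * (1 - σ) ≤ 2 * (1 / 4) := mul_le_mul f2 (by linarith) (by linarith) (by norm_num)
      have r2 : t * (A * (1 - σ)) ≤ t * (2 * (1 / 4)) := mul_le_mul_of_nonneg_left r1 ht0
      have r3 : 0 ≤ m * (2 - 2 * σ) := mul_nonneg hm0 (by linarith)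
      linarith
    refine ⟨Real.exp l, Real.one_le_exp hl0, ?_, ?_⟩
    · rw [eT1, Real.exp_le_exp]
      exact hlt
    obtain ⟨g, hg⟩ : ∃ g, g = G / V ^ 2 := ⟨_, rfl⟩
    obtain ⟨h, hh⟩ : ∃ h, h = H / U ^ 2 := ⟨_, rfl⟩
    have hg0 : 0 ≤ g := by rw [hg]; positivity
    have hh0 : 0 ≤ h := by rw [hh]; positivity
    have hg1 : g ≤ C₂ ^ 2 * Real.exp ((1 - 2 * σ) * n + 2 * (t * x)) := by
      rw [hg]; exact NUE_quot hC₂ hV hG' hNV'
    have hh1 : h ≤ C₂ ^ 2 * Real.exp ((1 - 2 * σ) * m + 2 * (t * x)) := by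
      rw [hh]; exact NUE_quot hC₂ hU hH' hMU'
    obtain ⟨w1, w2, w3, w4⟩ := NUE_exps (z := 2 * (t * x)) ht0 hδ hσ3 hσ1 hA hm1 hm2 hnm hnm2 hl
    have hE : ∀ y : ℝ, y ≤ 4 * (2 * (t * x)) + 2 * (t * δ) →
        t * (A * (1 - σ)) + y ≤ t * (A * (1 - σ)) + (t * ε - t * e') := by
      intro y hy
      linarith
    have hz0 : 0 ≤ t * x := mul_nonneg ht0 hx0.le
    have hd0 : 0 ≤ t * δ := mul_nonneg ht0 hδ.le
    have main := NUE_terms (E := t * (A * (1 - σ)) + (t * ε - t * e')) hC₂ hg0 hh0 hg1 hh1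
      (w1.trans (hE _ (by linarith))) (w2.trans (hE _ (by linarith)))
      (w3.trans (hE _ (by linarith))) (w4.trans (hE _ (by linarith)))
    rw [← hg, ← hh]
    have eE : Real.exp (t * e') * Real.exp (t * (A * (1 - σ)) + (t * ε - t * e')) =
        Real.exp (t * ε) * Real.exp (t * (A * (1 - σ))) := by
      rw [← Real.exp_add, ← Real.exp_add]
      congr 1
      ring
    have main2 := mul_le_mul_of_nonneg_left main
      (mul_nonneg hC₁.le (Real.exp_pos (t * e')).le)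
    have eT' : T ^ (A * (1 - σ)) = Real.exp (t * (A * (1 - σ))) := eT _
    rw [eT e', eT ε, eT', eT (1 / 2)]
    have eL : M * h * Real.exp l + M * h ^ 2 *
        (N * g * (T / (M * Real.exp l) + 1) + Real.exp (t * (1 / 2)) * N * g ^ 2) =
        Real.exp m * h * Real.exp l + Real.exp m * h ^ 2 *
        (Real.exp n * g * (Real.exp t / (Real.exp m * Real.exp l) + 1) +
        Real.exp (t * (1 / 2)) * Real.exp n * g ^ 2) := by
      rw [← eM1, ← eN1, ← eT1]
    rw [eL]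
    refine main2.trans (le_of_eq ?_)
    calc C₁ * Real.exp (t * e') * ((C₂ ^ 2 + 2 * C₂ ^ 6 + C₂ ^ 8) *
          Real.exp (t * (A * (1 - σ)) + (t * ε - t * e')))
        = C₁ * (C₂ ^ 2 + 2 * C₂ ^ 6 + C₂ ^ 8) *
          (Real.exp (t * e') * Real.exp (t * (A * (1 - σ)) + (t * ε - t * e'))) := by ring
      _ = C₁ * (C₂ ^ 2 + 2 * C₂ ^ 6 + C₂ ^ 8) * Real.exp (t * ε) *
          Real.exp (t * (A * (1 - σ))) := by rw [eE]; ring

end Pool.Agent.BEY
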